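import Pool.Agent.helper60.DB.SpecC

/-!
# Row bc:CV (MP_fb2c2a_nt)

The main theorem of this part (Coster and van Hamme): Fatou, the reduction modulo `p`, the constant and the
congruence modulo `p²` put together.
-/

namespace Pool.Agent.helper60.DB

open Polynomial Finset

theorem CV_map_Mn {R S : Type*} [CommRing R] [CommRing S] (φ : R →+* S) (N D : R[X]) :
    (Mn N D).map φ = Mn (N.map φ) (D.map φ) := by
  simp only [Mn, Polynomial.map_add, Polynomial.map_mul, Polynomial.map_sub, Polynomial.map_X,
    Polynomial.map_ofNat, Polynomial.derivative_map]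

theorem CV_map_qf {R S : Type*} [CommRing R] [CommRing S] (φ : R →+* S) (A B : R) :
    (qf A B).map φ = qf (φ A) (φ B) := by
  simp only [qf, Polynomial.map_add, Polynomial.map_mul, Polynomial.map_pow, Polynomial.map_X,
    Polynomial.map_C, Polynomial.map_one]

theorem CV (hFA : FA_stmt) (hFM : FM_stmt) (hMR : MR_stmt) (hC1 : C1_stmt) (hCR : CR_stmt) (hCS : CS_stmt) :
    CV_stmt := by
  intro R k _ _ _ _ p m _ _ q hL hp5 hpm A B A' B' π α y w g u N D hy hwy hM hqπ hπα hqB hqAB hB' hD hN1
    hD1 hDg
  obtain ⟨N', D', hD'0, hN', hD', hDg', hcop⟩ := hFA R k p q hL g m N D hD hN1 hD1 hDg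
  obtain ⟨hNm, hNq, hDq⟩ := hFM R k p m q hL hp5 hpm A B A' B' π α y g u N' D' hy hM hqπ hπα hqB hqAB
    hD'0 hN' hD' hDg'
  have hC := hC1 R k p m q hL hp5 hpm A B A' B' π α y w g u N' D' hy hwy hM hπα hD'0 hDg' hNq hDq
  have hE := (hMR R g N' D' hDg').2 A B A' B' π y u hy hM
  have hinj : Function.Injective (algebraMap R (FractionRing R)) := IsFractionRing.injective R _
  have hπ0 : π ≠ 0 := by
    rintro rfl
    rw [zero_mul] at hπα
    exact (Fact.out : p.Prime).ne_zero (by exact_mod_cast hπα.symm)
  have hB0 : B ≠ 0 := by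
    rintro rfl
    exact hqB (map_zero q)
  have hNm0 : N'.coeff m ≠ 0 := by
    intro h
    exact hNm (by rw [h, map_zero])
  have hN0 : N'.coeff 0 = π := by
    have h1 := congrArg PowerSeries.constantCoeff hDg'
    rw [map_mul, hM.cg, Polynomial.constantCoeff_coe, Polynomial.constantCoeff_coe, hD'0, one_mul] at h1
    exact h1.symm
  have hne : ∀ a : R, a ≠ 0 → algebraMap R (FractionRing R) a ≠ 0 := by
    intro a ha h
    exact ha (hinj (by rw [h, map_zero]))
  have hmap : qf (algebraMap R (FractionRing R) A) (algebraMap R (FractionRing R) B)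
        * Mn (N'.map (algebraMap R (FractionRing R))) (D'.map (algebraMap R (FractionRing R))) ^ 2
      = C ((algebraMap R (FractionRing R) π) ^ 2) * ((D'.map (algebraMap R (FractionRing R))) ^ 4
        + C (algebraMap R (FractionRing R) A') * X * (N'.map (algebraMap R (FractionRing R))) ^ 2
            * (D'.map (algebraMap R (FractionRing R))) ^ 2
        + C (algebraMap R (FractionRing R) B') * X ^ 2 * (N'.map (algebraMap R (FractionRing R))) ^ 4) := by
    have h1 := congrArg (Polynomial.map (algebraMap R (FractionRing R))) hE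
    simp only [Polynomial.map_add, Polynomial.map_mul, Polynomial.map_pow, Polynomial.map_X,
      Polynomial.map_C, CV_map_Mn, CV_map_qf, map_pow] at h1
    rw [map_pow C]
    exact h1
  have hR := hCR (FractionRing R) (algebraMap R (FractionRing R) A) (algebraMap R (FractionRing R) B)
    (algebraMap R (FractionRing R) A') (algebraMap R (FractionRing R) B') (algebraMap R (FractionRing R) π)
    (N'.map (algebraMap R (FractionRing R))) (D'.map (algebraMap R (FractionRing R))) m (hne B hB0)
    (hne B' hB') (hne π hπ0) (Polynomial.natDegree_map_le.trans hN') (Polynomial.natDegree_map_le.trans hD')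
    (by rw [Polynomial.coeff_map]; exact hne _ hNm0) (by rw [Polynomial.coeff_map, hN0])
    (by rw [Polynomial.coeff_map, hD'0, map_one]) hcop hmap
  have hR' : B' * (N'.coeff m) ^ 4 = B ^ p := by
    apply hinj
    rw [map_mul, map_pow, map_pow, hpm, ← hR, Polynomial.coeff_map]
  exact ⟨N'.coeff m, hNm, hR',
    hCS R k p m q hL hp5 hpm A B A' B' π α y g u N' D' hy hM hπα hqB hqAB hDg' hNq hDq hR', hC⟩

end Pool.Agent.helper60.DB
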